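import Pool.Agent.MP_caba0b_al.H43.Inv0

/-! The truncation regions are adapted. -/

namespace Pool.Agent.MP_caba0b_al.H90

open Equiv Pool.Agent.MP_caba0b_al.H43

variable {S : Side}

lemma ip_push (ν : Wt S.n) (e : ℂ) : ip (S.push ν) e = ∑ i, (ν i : ℝ) * S.rho e i := by
  rw [Side.push_cast', Side.ip_pR]

lemma dom_ip {ν lam : Wt S.n} (h : Dom ν lam) (π : Perm (Fin S.n)) (e : ℂ) :
    ∃ σ : Perm (Fin S.n), ip (S.push (ν ∘ π)) e ≤ ip (S.push (lam ∘ σ)) e := by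
  obtain ⟨σ, hσ⟩ := h (fun j => S.rho e (π.symm j))
  refine ⟨σ * π, ?_⟩
  rw [ip_push, ip_push]
  rw [← Equiv.sum_comp π, ← Equiv.sum_comp π (fun i => S.rho e (π.symm i) * (lam (σ i) : ℝ))] at hσ
  simpa [mul_comm] using hσ

lemma dom_nsq {n : ℕ} {ν lam : Wt n} (h : Dom ν lam) : nsq ν ≤ nsq lam := by
  obtain ⟨σ, hσ⟩ := h (fun j => (ν j : ℝ))
  have h1 : nsq (lam ∘ σ) = nsq lam := nsq_perm lam σ
  have h2 : ∑ i, (ν i : ℝ) * lam (σ i) ≤ ∑ i, ((ν i : ℝ) ^ 2 + (lam (σ i) : ℝ) ^ 2) / 2 :=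
    Finset.sum_le_sum fun i _ => by nlinarith [sq_nonneg ((ν i : ℝ) - lam (σ i))]
  rw [← Finset.sum_div, Finset.sum_add_distrib] at h2
  simp only [nsq, Function.comp] at h1 ⊢
  simp only [← sq] at hσ
  linarith

lemma dom_L {m : ℕ} {c R : ℝ} {ν lam : Wt S.n} (hl : S.L m c R lam) (h : Dom ν lam) :
    S.L m c R ν := by
  refine ⟨fun π => ⟨?_, fun u hu => ?_⟩, ?_⟩
  · obtain ⟨σ, hσ⟩ := dom_ip h π (S.push (ν ∘ π))
    rw [ip_self] at hσ
    have h1 := (le_abs_self _).trans (abs_ip_le (S.push (lam ∘ σ)) (S.push (ν ∘ π)))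
    have h2 := (hl.1 σ).1
    have h3 := norm_nonneg ((S.push (ν ∘ π) : GaussianInt) : ℂ)
    have h4 := norm_nonneg ((S.push (lam ∘ σ) : GaussianInt) : ℂ)
    by_contra hc
    push Not at hc
    nlinarith
  · obtain ⟨σ, hσ⟩ := dom_ip h π (un u)
    exact hσ.trans ((hl.1 σ).2 u hu)
  · exact (mul_le_mul_of_nonneg_left (dom_nsq h) (Nat.cast_nonneg _)).trans hl.2

/-- the inversions of `w` -/
def invs {n : ℕ} (w : Perm (Fin n)) : Finset (Fin n × Fin n) :=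
  Finset.univ.filter (fun p : Fin n × Fin n => p.1 < p.2 ∧ w p.2 < w p.1)

lemma card_invs {n : ℕ} (w : Perm (Fin n)) : ((invs w).card : ℝ) ≤ (n : ℝ) ^ 2 := by
  have := Finset.card_le_univ (invs w)
  simp only [Fintype.card_prod, Fintype.card_fin] at this
  rw [sq]
  exact_mod_cast this

lemma push_shift (hB : SymB S.n) (lam : Wt S.n) (w π : Perm (Fin S.n)) :
    (S.push ((lam + del S.n - del S.n ∘ w) ∘ π) : ℂ) = S.push (lam ∘ π) +
      ∑ p ∈ invs w, ((S.a (π.symm p.2) - S.a (π.symm p.1) : GaussianInt) : ℂ) := by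
  have h := hB.inv w (fun j => (S.a (π.symm j) : ℂ))
  rw [← Equiv.sum_comp π] at h
  simp only [map_sub]
  rw [invs, ← h]
  simp only [Side.push, map_sum, zsmul_eq_mul, map_mul, map_intCast, Function.comp, Pi.add_apply,
    Pi.sub_apply, Equiv.symm_apply_apply, ← Finset.sum_add_distrib]
  refine Finset.sum_congr rfl fun i _ => ?_
  push_cast
  ring

lemma nsq_shift {n : ℕ} (hB : SymB n) (lam : Wt n) (w : Perm (Fin n)) :
    nsq lam + 2 * ∑ p ∈ invs w, ((lam p.2 : ℝ) - lam p.1) ≤ nsq (lam + del n - del n ∘ w) := by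
  have h := hB.inv w (fun j => (lam j : ℂ))
  have h2 : ∑ i, (lam i : ℝ) * ((del n - del n ∘ w) i : ℤ) =
      ∑ p ∈ invs w, ((lam p.2 : ℝ) - lam p.1) := by
    rw [invs]
    exact_mod_cast h
  rw [← h2, nsq, nsq, Finset.mul_sum, ← Finset.sum_add_distrib]
  refine Finset.sum_le_sum fun i _ => ?_
  simp only [Pi.add_apply, Pi.sub_apply]
  push_cast
  nlinarith [sq_nonneg ((del n i : ℝ) - (del n ∘ w) i)]

lemma coord_le (ν : Wt S.n) (B : ℝ) (hB : 1 ≤ B)
    (h : S.N * nsq ν - ((S.push ν).norm : ℝ) ≤ B) (i : Fin S.n) :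
    |ip (S.push ν) (S.a i) - S.N * ν i| ≤ S.N * B := by
  have hN := Side.one_le_N (S := S)
  rw [← Side.df_cast, Side.df_eq, ← Side.push_cast'] at h
  have h1 : ((ν i : ℝ) - (S.N : ℝ)⁻¹ * S.rho (S.push ν) i) ^ 2 ≤
      ∑ j, ((ν j : ℝ) - (S.N : ℝ)⁻¹ * S.rho (S.push ν) j) ^ 2 :=
    Finset.single_le_sum (f := fun j => ((ν j : ℝ) - (S.N : ℝ)⁻¹ * S.rho (S.push ν) j) ^ 2)
      (fun _ _ => sq_nonneg _) (Finset.mem_univ i)
  have h2 : ((ν i : ℝ) - (S.N : ℝ)⁻¹ * S.rho (S.push ν) i) ^ 2 ≤ B ^ 2 := by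
    nlinarith [sq_nonneg ((ν i : ℝ) - (S.N : ℝ)⁻¹ * S.rho (S.push ν) i)]
  have h3 := abs_le_of_sq_le_sq h2 (by linarith)
  have e : ip (S.push ν) (S.a i) - S.N * ν i =
      -(S.N * ((ν i : ℝ) - (S.N : ℝ)⁻¹ * S.rho (S.push ν) i)) := by
    simp only [Side.rho]
    field_simp
    ring
  rw [e, abs_neg, abs_mul, abs_of_pos (by linarith)]
  exact mul_le_mul_of_nonneg_left h3 (by linarith)

lemma normal_dir {m : ℕ} {d : GaussianInt} (hd : d ≠ 0) (hm : d.norm ≤ m) :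
    ∃ u : GaussianInt, Ex m u ∧ ip d (un u) = 0 ∧ ∀ z : ℂ, |cr z (un u)| ≤ |ip z d| := by
  have hI : (⟨0, 1⟩ : GaussianInt) * d ≠ 0 := mul_ne_zero (by decide) hd
  obtain ⟨u, k, hu, hk, e⟩ := exists_prim hI
  have hn : ((⟨0, 1⟩ : GaussianInt) * d).norm = d.norm := by
    rw [Zsqrtd.norm_mul]
    simp [Zsqrtd.norm_def]
  have hc : (((⟨0, 1⟩ : GaussianInt) * d : GaussianInt) : ℂ) = Complex.I * d := by
    rw [map_mul]
    congr 1
    apply Complex.ext <;> simp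
  have hun : un u = ((‖(d : ℂ)‖⁻¹ : ℝ) : ℂ) * (Complex.I * d) := by
    rw [← un_nat_mul u hk, ← e, un, hc, norm_mul, Complex.norm_I, one_mul]
  have h1 := one_le_norm hd
  refine ⟨u, ⟨hu, ?_⟩, ?_, fun z => ?_⟩
  · have := norm_le_nat_mul u hk
    rw [← e, hn] at this
    exact this.trans hm
  · rw [hun, ip_smul, ip_eq]
    simp only [Complex.mul_re, Complex.mul_im, Complex.I_re, Complex.I_im]
    ring
  · have e2 : cr z (Complex.I * d) = -ip z d := by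
      rw [cr_eq, ip_eq]
      simp only [Complex.mul_re, Complex.mul_im, Complex.I_re, Complex.I_im]
      ring
    rw [hun, cr_smul, e2, abs_mul, abs_neg, abs_of_pos (by positivity)]
    exact mul_le_of_le_one_left (abs_nonneg _) (inv_le_one_of_one_le₀ h1)

lemma ip_sum {ι : Type} (F : Finset ι) (f : ι → ℂ) (e : ℂ) :
    ip (∑ i ∈ F, f i) e = ∑ i ∈ F, ip (f i) e := by
  simp [ip, Finset.sum_mul, Complex.re_sum]

/-- moving a point of the region by short vectors almost orthogonal to it -/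
lemma shift_inP {m : ℕ} {ε c η R δ M : ℝ} (hP : Plane m ε c η) {ι : Type} (F : Finset ι)
    (d : ι → GaussianInt) (z : ℂ) (hz : inP m c R z) (hε : 0 < ε) (hc : 1 / 2 ≤ c)
    (hd : ∀ p ∈ F, (d p).norm ≤ m) (hδ : ∀ p ∈ F, |ip z (d p)| ≤ δ)
    (hM : ‖∑ p ∈ F, (d p : ℂ)‖ ≤ M) (h1 : 4 * M ≤ R) (h2 : 12 * δ ≤ ε * R) (h3 : δ + M ≤ η * R) :
    inP m c R (z + ∑ p ∈ F, (d p : ℂ)) := by
  have hM0 : 0 ≤ M := (norm_nonneg _).trans hM
  by_cases hs : ‖z‖ ≤ R / 4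
  · refine hP.ball ((norm_add_le _ _).trans ?_)
    nlinarith
  push Not at hs
  by_cases h0 : ∀ p ∈ F, d p = 0
  · rw [Finset.sum_eq_zero (fun p hp => by rw [h0 p hp]; simp), add_zero]
    exact hz
  push Not at h0
  obtain ⟨p, hp, hp0⟩ := h0
  obtain ⟨u, hu, _, hcr⟩ := normal_dir hp0 (hd p hp)
  have hcu := (hcr z).trans (hδ p hp)
  have hall : ∀ q ∈ F, ip (d q) (un u) = 0 := by
    intro q hq
    by_cases hq0 : d q = 0
    · rw [hq0]; simp [ip]
    obtain ⟨v, hv, hv0, hcr'⟩ := normal_dir hq0 (hd q hq)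
    have hcv := (hcr' z).trans (hδ q hq)
    by_cases e1 : v = u
    · rw [← e1]; exact hv0
    by_cases e2 : v = -u
    · rw [e2, un_neg, ip_neg, neg_eq_zero] at hv0
      exact hv0
    have := hP.two hu hv e1 e2 hcu hcv
    nlinarith
  refine hP.strip hu ?_ ?_
  · rw [ip_add, ip_sum, Finset.sum_eq_zero hall, add_zero, abs_le]
    have a1 := hz.2 u hu
    have a2 := hz.2 (-u) hu.neg
    rw [un_neg, ip_neg] at a2
    constructor <;> linarith
  · rw [cr_add]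
    have a1 := abs_cr_le (∑ p ∈ F, (d p : ℂ)) (un u)
    rw [hu.norm_un, mul_one] at a1
    exact (abs_add_le _ _).trans (by linarith)

lemma gap_L (hB : SymB S.n) {m : ℕ} {ε c η κ k R : ℝ} (hC : Cst m ε c η κ) (hP : Plane m ε c η)
    (hG : S.Geo m ε) (h12 : S.G12 m ε c κ) (k1 : 36 * S.N * k ≤ ε) (k2 : 6 * S.N * k ≤ η)
    (r1 : 1 ≤ k * R) (r2 : 4 * ((S.n : ℝ) ^ 2 * m) ≤ R) (r3 : 2 * ((S.n : ℝ) ^ 2 * m) ≤ η * R)
    (r4 : k + 2 * ((S.n : ℝ) ^ 2 * m) ≤ κ ^ 2 * R) {lam : Wt S.n} (hl : S.L m c R lam)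
    (hmono : Monotone lam) (w π : Perm (Fin S.n))
    (hgap : S.N * nsq (lam + del S.n - del S.n ∘ w) - ((S.push (lam ∘ π)).norm : ℝ) ≤ k * R) :
    S.L m c R (lam + del S.n - del S.n ∘ w) := by
  have hN := Side.one_le_N (S := S)
  have hm : (1 : ℝ) ≤ m := by exact_mod_cast hC.hm
  set M : ℝ := (S.n : ℝ) ^ 2 * m with hM
  have hM0 : 0 ≤ M := by positivity
  have hR : 0 ≤ R := by linarith
  have hc : 1 / 2 ≤ c := by nlinarith [hC.c0, hC.c2]
  have hsh := nsq_shift hB lam w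
  have hnn : ∀ p ∈ invs w, (0 : ℝ) ≤ (lam p.2 : ℝ) - lam p.1 := by
    intro p hp
    have := hmono (Finset.mem_filter.1 hp).2.1.le
    have : (lam p.1 : ℝ) ≤ lam p.2 := by exact_mod_cast this
    linarith
  have hsum := Finset.sum_nonneg hnn
  have hdf0 := S.norm_push_le (lam ∘ π)
  rw [nsq_perm] at hdf0
  have hsh' := mul_le_mul_of_nonneg_left hsh (show (0 : ℝ) ≤ S.N by linarith)
  have hdf : S.N * nsq (lam ∘ π) - ((S.push (lam ∘ π)).norm : ℝ) ≤ k * R := by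
    rw [nsq_perm]
    nlinarith
  have hS : S.N * ∑ p ∈ invs w, ((lam p.2 : ℝ) - lam p.1) ≤ k * R := by nlinarith
  have hip : ∀ p ∈ invs w, |ip (S.push (lam ∘ π))
      ((S.a (π.symm p.2) - S.a (π.symm p.1) : GaussianInt) : ℂ)| ≤ 3 * S.N * (k * R) := by
    intro p hp
    have a1 := coord_le (lam ∘ π) (k * R) r1 hdf (π.symm p.2)
    have a2 := coord_le (lam ∘ π) (k * R) r1 hdf (π.symm p.1)
    simp only [Function.comp, Equiv.apply_symm_apply] at a1 a2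
    have a3 := Finset.single_le_sum hnn hp
    have a4 := hnn p hp
    have e : ip (S.push (lam ∘ π)) ((S.a (π.symm p.2) - S.a (π.symm p.1) : GaussianInt) : ℂ) =
        ip (S.push (lam ∘ π)) (S.a (π.symm p.2)) - ip (S.push (lam ∘ π)) (S.a (π.symm p.1)) := by
      rw [map_sub]
      simp only [ip_eq, Complex.sub_re, Complex.sub_im]
      ring
    have a5 : S.N * ((lam p.2 : ℝ) - lam p.1) ≤ S.N * (k * R) := by nlinarith
    have a6 : 0 ≤ S.N * ((lam p.2 : ℝ) - lam p.1) := by positivity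
    rw [e]
    rw [abs_le] at a1 a2 ⊢
    constructor <;> nlinarith [a1.1, a1.2, a2.1, a2.2]
  have hE : ‖∑ p ∈ invs w, ((S.a (π.symm p.2) - S.a (π.symm p.1) : GaussianInt) : ℂ)‖ ≤ M := by
    refine (norm_sum_le _ _).trans ?_
    refine (Finset.sum_le_card_nsmul _ _ (m : ℝ) fun p _ => ?_).trans ?_
    · have a1 : (((S.a (π.symm p.2) - S.a (π.symm p.1)).norm : ℤ) : ℝ) ≤ m := by
        exact_mod_cast hG.wall _ _
      rw [norm_gi] at a1
      exact abs_le_of_sq_le_sq' (by nlinarith) (by linarith) |>.2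
    · rw [nsmul_eq_mul]
      exact mul_le_mul_of_nonneg_right (card_invs w) (by linarith)
  have hin := shift_inP hP (invs w) (fun p => S.a (π.symm p.2) - S.a (π.symm p.1)) _ (hl.1 π)
    hC.e0 hc (fun p _ => hG.wall _ _) hip hE r2 (by nlinarith) (by nlinarith)
  have hpush := push_shift hB lam w π
  rw [← hpush] at hin
  have hnew : S.N * nsq ((lam + del S.n - del S.n ∘ w) ∘ π) -
      ((S.push ((lam + del S.n - del S.n ∘ w) ∘ π)).norm : ℝ) ≤ (κ * R) ^ 2 := by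
    rw [nsq_perm, norm_gi, hpush]
    rw [norm_gi] at hgap
    have a0 := (hl.1 π).1
    generalize ((S.push (lam ∘ π) : GaussianInt) : ℂ) = z at *
    generalize (∑ p ∈ invs w, ((S.a (π.symm p.2) - S.a (π.symm p.1) : GaussianInt) : ℂ)) = E at *
    have a1 : ‖z + E‖ ^ 2 = ‖z‖ ^ 2 + 2 * ip z E + ‖E‖ ^ 2 := by
      rw [nsq_c, nsq_c, nsq_c, ip_eq]
      simp only [Complex.add_re, Complex.add_im]
      ring
    have a2 := (abs_le.1 (abs_ip_le z E)).1
    have a3 : ‖z‖ * ‖E‖ ≤ R * M := mul_le_mul a0 hE (norm_nonneg _) hR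
    have a4 := mul_le_mul_of_nonneg_right r4 hR
    nlinarith [sq_nonneg ‖E‖]
  have hL := (h12 R (κ * R) _ (mul_nonneg hC.k0.le hR) le_rfl hin hnew).1.perm π.symm
  have e : ((lam + del S.n - del S.n ∘ w) ∘ π) ∘ π.symm = lam + del S.n - del S.n ∘ w := by
    funext i
    simp
  rwa [e] at hL

theorem adapt : (∀ n, SymB n) → AdaptStmt := by
  intro hB m ε c η κ hC hP S hG h12
  have hN := Side.one_le_N (S := S)
  have he := hC.e0
  have hη := hC.η0
  have hκ := hC.k0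
  have hc := hC.c0
  set M : ℝ := (S.n : ℝ) ^ 2 * m with hM
  have hM0 : 0 ≤ M := by positivity
  set k : ℝ := min (min κ c) (min (ε / (36 * S.N)) (η / (6 * S.N))) with hk
  have hk0 : 0 < k := by positivity
  have k0 : k ≤ κ := (min_le_left _ _).trans (min_le_left _ _)
  have k0' : k ≤ c := (min_le_left _ _).trans (min_le_right _ _)
  have k1 : 36 * S.N * k ≤ ε := by
    have : k ≤ ε / (36 * S.N) := (min_le_right _ _).trans (min_le_left _ _)
    rwa [le_div_iff₀' (by positivity)] at this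
  have k2 : 6 * S.N * k ≤ η := by
    have : k ≤ η / (6 * S.N) := (min_le_right _ _).trans (min_le_right _ _)
    rwa [le_div_iff₀' (by positivity)] at this
  refine ⟨k, 1 / k + 4 * M + 2 * M / η + (k + 2 * M) / κ ^ 2, hk0, ?_⟩
  intro κ'' R P Λ h0 h1 hR hPm hΛ
  have p1 : 0 ≤ 1 / k := by positivity
  have p2 : 0 ≤ 2 * M / η := by positivity
  have p3 : 0 ≤ (k + 2 * M) / κ ^ 2 := by positivity
  have hR0 : 0 ≤ R := by linarith
  have r1 : 1 ≤ k * R := by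
    have : 1 / k ≤ R := by linarith
    rwa [div_le_iff₀' hk0] at this
  have r2 : 4 * M ≤ R := by linarith
  have r3 : 2 * M ≤ η * R := by
    have : 2 * M / η ≤ R := by linarith
    rwa [div_le_iff₀' hη] at this
  have r4 : k + 2 * M ≤ κ ^ 2 * R := by
    have : (k + 2 * M) / κ ^ 2 ≤ R := by linarith
    rwa [div_le_iff₀' (by positivity)] at this
  have near : ∀ ν : Wt S.n, inP m c R (S.push ν) →
      S.N * nsq ν - ((S.push ν).norm : ℝ) ≤ (κ'' * R) ^ 2 → S.L m c R ν := fun ν a b =>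
    (h12 R (κ'' * R) ν (by positivity) (mul_le_mul_of_nonneg_right (h1.trans k0) hR0) a b).1
  refine ⟨fun μ hμ => ?_, fun ν hν => ((hΛ ν).1 hν).2,
    fun ν hν π => (hΛ _).2 (((hΛ ν).1 hν).perm π),
    fun lam hl ν h => (hΛ _).2 (dom_L ((hΛ lam).1 hl) h),
    fun ν hν => (hPm _).2 (((hΛ ν).1 hν).1 1),
    fun ν a b => (hΛ _).2 (near ν ((hPm _).1 a) b), fun ν hν => (hΛ _).2 (near ν ?_ ?_),
    fun lam hl hmono w π hn => ?_⟩
  · rw [norm_gi]
    exact pow_le_pow_left₀ (norm_nonneg _) ((hPm μ).1 hμ).1 2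
  · have a1 := (S.norm_push_le ν).trans hν
    rw [norm_gi] at a1
    have a2 := (abs_le_of_sq_le_sq' a1 (by positivity)).2
    exact hP.ball (a2.trans (mul_le_mul_of_nonneg_right (h1.trans k0') hR0))
  · have : (0 : ℝ) ≤ ((S.push ν).norm : ℝ) := by rw [norm_gi]; positivity
    linarith
  · by_contra hcon
    push Not at hcon
    refine hn ((hΛ _).2 (gap_L (hB _) hC hP hG h12 k1 k2 r1 r2 r3 r4 ((hΛ lam).1 hl) hmono w π ?_))
    exact hcon.le.trans (mul_le_mul_of_nonneg_right h1 hR0)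

end Pool.Agent.MP_caba0b_al.H90
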